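import Pool.Agent.LKU.Stmts

/-!
# Squad LKV (MP_e0fe99_lc): inner links 1, b, 1, b, 1 with 21/20 <= b <= 6/5

Same class X2 (53 signs) as squad LKU: all wall rows do not see the lengths.  With b >= 21/20 the distance of
v_1 and v_6 is at most 1 + b, so that (G,1,b,1,b,1,G') is locked for G, G' > 1 + b: ratio of longest to shortest
link 2.05.
-/

set_option autoImplicit false

open Topology

namespace Pool.Agent.LKV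

open Pool.Agent.LCK Pool.Agent.LKT Pool.Agent.LKU

/-- RBV (helper72, helper68).  REACH, lengths 1, b, 1, b, 1. -/
def RbvStmt : Prop := ∀ b : ℝ, 21 / 20 ≤ b → ∀ x : Fin 8 → E3, ‖x 2 - x 1‖ = 1 → ‖x 3 - x 2‖ = b →
  ‖x 4 - x 3‖ = 1 → ‖x 5 - x 4‖ = b → ‖x 6 - x 5‖ = 1 →
  Meet (x 1) (x 2) (x 3) (x 4) (x 5) → Meet (x 1) (x 2) (x 4) (x 5) (x 6) →
  Meet (x 5) (x 6) (x 1) (x 2) (x 3) → Meet (x 5) (x 6) (x 2) (x 3) (x 4) →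
  ‖x 4 - x 1‖ ≤ 1 + b ∧ ‖x 5 - x 1‖ ≤ 1 + b ∧ ‖x 6 - x 2‖ ≤ 1 + b ∧ ‖x 6 - x 3‖ ≤ 1 + b ∧ ‖x 6 - x 1‖ ≤ 1 + b

/-- EXV (helper59).  THE EXAMPLE: x 1 = 0, x 2 = (9,-6,-2)/11, x 3 = (9 - 7b, -6 + 6b, -2 + 6b)/11,
x 4 = (41/77 - 7b/11, -108/77 + 6b/11, -47/77 + 6b/11), x 5 = (41/77 - b/11, -108/77 + 15b/11, -47/77 + 4b/11),
x 6 = (-1/77 - b/11, -150/77 + 15b/11, 2/77 + 4b/11), x 0 = -G (0,1,0), x 7 = G' (2,3,-6)/7 (directions of the links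
(0,1,0), (9,-6,-2)/11, (-7,6,6)/11, (-2,-6,-3)/7, (6,9,-2)/11, (-6,-6,7)/11, (2,3,-6)/7).  All 53 signed brackets are
polynomials of degree at most 2 in b, positive for 21/20 <= b <= 6/5 (smallest 0.0089 for G = G' = 1), D0123 = - 40 b G/121. -/
def ExvStmt : Prop := ∀ b G G' : ℝ, 21 / 20 ≤ b → b ≤ 6 / 5 → 0 < G → 0 < G' → ∃ x ∈ X2, D x 0 1 2 3 ≠ 0 ∧
  ‖x 0‖ = G ∧ ‖x 7‖ = G' ∧ ‖x 2 - x 1‖ = 1 ∧ ‖x 3 - x 2‖ = b ∧ ‖x 4 - x 3‖ = 1 ∧ ‖x 5 - x 4‖ = b ∧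
  ‖x 6 - x 5‖ = 1

/-- FNV (helper79).  THE THEOREM. -/
def FnvStmt : Prop := ∀ b G G' : ℝ, 21 / 20 ≤ b → b ≤ 6 / 5 → 1 + b < G → 1 + b < G' →
  Locked (n := 7) ![G, 1, b, 1, b, 1, G']

/-- EXW (helper79).  Longer chains. -/
def ExwStmt : Prop := ∀ (b : ℝ), 21 / 20 ≤ b → b ≤ 6 / 5 →
  ∀ (n : ℕ) (l : Fin n → ℝ) (s : ℕ) (hs : s + 7 ≤ n), (∀ k, 0 < l k) →
  1 + b < l ⟨s, by omega⟩ → l ⟨s + 1, by omega⟩ = 1 → l ⟨s + 2, by omega⟩ = b → l ⟨s + 3, by omega⟩ = 1 →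
  l ⟨s + 4, by omega⟩ = b → l ⟨s + 5, by omega⟩ = 1 → 1 + b < l ⟨s + 6, by omega⟩ → Locked l

end Pool.Agent.LKV
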